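import Mathlib
import Pool.Agent.H884.TF.Few2
import Pool.Agent.H884.TF.Chart

/-!
# Reduced curves with a `t`-fold point: Q1 is true for at most eight points

The starting library shows that the statement of Q1 fails for every `r ≥ 10` points and `t ≥ 5`, and
for every `r ≥ 11` points and `t ≥ 3` (`TenPoints`).  Here: Q1 is TRUE for all `r ≤ 8`, for every
degree `d`, all multiplicities `m_1, …, m_r` and every `t ≥ 1`, for all points of the blow-up,
including the points of the exceptional curves.

Let `x` be a point of multiplicity `t` of a reduced plane curve `F` and blow up the eight points and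
`x`.  A component of `F` whose class has negative virtual dimension is a `(-2)`-curve (or the cubic
curve `A` through the eight points with a double point at `x`), by the inequality of the genus and
by the inequality of Bezout with the cubic curve `A` through the nine points.  If the numerical
inequality held, `F` would have three pairwise disjoint such components `F_1`, `F_2`, `F_3`, and
each `F_a` meets `A` only in the nine points.  The eight points are very general, so there are
sixteen derivations of the field of complex numbers which move them independently; those which kill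
the coefficients of `A` form a space of dimension at least seven.  By the theorem of Abel on `A` each
`F_a` gives a linear relation between the velocities of the nine points on `A`; the three relations
are independent, so that only a space of dimension six is left: a contradiction.

If `x` is a point of the exceptional curve `E_i`, then a quadratic transformation based at `p_i` and
two other points maps `E_i` to a line; the eight new points are again very general, `x` becomes a
point of the plane different from them, and the components of the curve which are contracted are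
lines which do not pass through `x` and can be removed.

`H4RC.mult` and `H4RC.pt` are the definitions of the starting library: `mult F w` is the order of
the expansion of `F` at `w` and `pt p = (p_0, p_1, 1)`.
-/

open MvPolynomial H4RC

namespace Pool.Agent.Results.MP_b1ca72_ag.AtMostEightPoints

/-- The total transform of the plane curve `F = 0` under the blow-up of the point `q` of the affine
plane, in the chart `(u, s) ↦ q + u (v + s w)` of the blow-up, where `v`, `w` is a basis of the
plane and `u = X 0`, `s = X 1`: these are coordinates of the blow-up near the point of the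
exceptional curve (`u = 0`) which is the direction `v`, and this point is `(u, s) = (0, 0)`.  (The
third variable does not occur.) -/
noncomputable def tot (q v w : Fin 2 → ℂ) (F : MvPolynomial (Fin 3) ℂ) :
    MvPolynomial (Fin 3) ℂ :=
  aeval ![C (q 0) + X 0 * (C (v 0) + X 1 * C (w 0)), C (q 1) + X 0 * (C (v 1) + X 1 * C (w 1)), 1] F

/-- The curve `C = π^* F - ∑ m_i E_i` on the blow-up of the plane at the points `p_i` has a point of
multiplicity at least `t`.  Either this is a point `x` of the plane, given by a nonzero vector,
which is different from all `p_i`, and `F` has multiplicity at least `t` at `x`; or it is the point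
of `E_i` which is the direction `v`, and there `π^* F` has multiplicity at least `m_i + t` (the
multiplicity of `m_i E_i` is `m_i`). -/
def HasPoint {r : ℕ} (p : Fin r → Fin 2 → ℂ) (m : Fin r → ℕ) (F : MvPolynomial (Fin 3) ℂ)
    (t : ℕ) : Prop :=
  (∃ x : Fin 3 → ℂ, x ≠ 0 ∧ (∀ (i : Fin r) (c : ℂ), x ≠ c • pt (p i)) ∧ (t : ℕ∞) ≤ mult F x) ∨
  ∃ (i : Fin r) (v w : Fin 2 → ℂ), v 0 * w 1 - v 1 * w 0 ≠ 0 ∧
    ((m i + t : ℕ) : ℕ∞) ≤ mult (tot (p i) v w F) 0

/-- The curve `C = π^* F - ∑ m_i E_i` on the blow-up is reduced: `F` is squarefree and the
coefficient `mult_{p_i} F - m_i` of `E_i` in `C` is at most one for all `i`. -/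
def Reduced {r : ℕ} (p : Fin r → Fin 2 → ℂ) (m : Fin r → ℕ) (F : MvPolynomial (Fin 3) ℂ) : Prop :=
  Squarefree F ∧ ∀ i, mult F (pt (p i)) ≤ ((m i + 1 : ℕ) : ℕ∞)

/-- **Main theorem.**  Let `r ≤ 8`.  There is a countable set `S` of nonzero polynomials in the
`2 r` affine coordinates of the points such that for all configurations `p` of `r` points at which
no element of `S` vanishes the following holds.  Let `d ≥ 1`, `t ≥ 1` and `m_1, …, m_r ≥ 0` satisfy
the numerical inequality of the question.  Then every curve `C = π^* F - ∑ m_i E_i` in the linear
system `|d H - ∑ m_i E_i|` on the blow-up (`F` is a nonzero form of degree `d` with multiplicity at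
least `m_i` at `p_i` for all `i`) which has a point of multiplicity at least `t` is non-reduced. -/
theorem result (r : ℕ) (hr : r ≤ 8) :
    ∃ S : Set (MvPolynomial (Fin r × Fin 2) ℂ), S.Countable ∧
      (0 : MvPolynomial (Fin r × Fin 2) ℂ) ∉ S ∧
      ∀ p : Fin r → Fin 2 → ℂ,
        (∀ g ∈ S, MvPolynomial.eval (fun ij : Fin r × Fin 2 => p ij.1 ij.2) g ≠ 0) →
        ∀ (d t : ℕ) (m : Fin r → ℕ), 1 ≤ d → 1 ≤ t →
          (((d + 2).choose 2 : ℕ) : ℤ) - ∑ i, (((m i + 1).choose 2 : ℕ) : ℤ)
            ≤ max ((((t + 1).choose 2 : ℕ) : ℤ) - 2) 0 →
          ∀ F : MvPolynomial (Fin 3) ℂ, F ≠ 0 → F.IsHomogeneous d →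
            (∀ i, (m i : ℕ∞) ≤ mult F (pt (p i))) → HasPoint p m F t → ¬ Reduced p m F := by
  obtain ⟨G, hG0, hG⟩ := Pool.Agent.TH167.SH.exists_fam (Fin r × Fin 2)
  refine ⟨Set.range G, Set.countable_range G, ?_, ?_⟩
  · rintro ⟨j, hj⟩
    exact hG0 j hj
  · rintro p hp d t m _ ht hN F _ hF hm (⟨x, hx0, hx, hxt⟩ | ⟨i, v, w, hvw, hvt⟩) ⟨hsq, hred⟩
    · have hP := (hG fun ij : Fin r × Fin 2 => p ij.1 ij.2).1 fun j => hp _ ⟨j, rfl⟩
      exact absurd hN (not_le.2 (Pool.Agent.H884.TF.few hr hP hx0 hx hF hsq hm hxt ht))
    · have hP := (hG fun ij : Fin r × Fin 2 => p ij.1 ij.2).1 fun j => hp _ ⟨j, rfl⟩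
      have hv : v ≠ 0 := by
        rintro rfl
        apply hvw
        simp
      have h1 := Pool.Agent.H884.TF.van_chart (q := p i) hvw
        ((Pool.Agent.TH167.SH.van_iff _ _ _).2 hvt)
      exact absurd hN (not_le.2 (Pool.Agent.H884.TF.few_exc hr hP i hv hF hsq hm (hred i)
        ((Pool.Agent.TH167.SH.van_iff _ _ _).1 h1) ht))

end Pool.Agent.Results.MP_b1ca72_ag.AtMostEightPoints
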