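import Mathlib
import Pool.Agent.H884.TF.Nine2
import Pool.Agent.H884.TF.Chart

/-!
# Reduced curves with a `t`-fold point: nine points, and a point of the cubic curve through them

The starting library shows that the statement of Q1 fails for every `r ≥ 10` points and `t ≥ 5`;
another hand-in shows that it is true for all `r ≤ 8` and all `t`.  So for `t ≥ 5` only `r = 9` is
left.  Here: for `r = 9` the statement is TRUE, for every degree `d`, all multiplicities
`m_1, …, m_9` and every `t ≥ 1`, for all points `x` of the blow-up which lie on the proper transform
of the cubic curve `A` through the nine points, including its nine points on the exceptional curves.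

(For points `x` which are not on `A` the statement would imply the conjecture of Nagata for ten
points.)

The cubic curve `A` is smooth, because the eighteen derivations which move the nine points
independently would otherwise leave a space of dimension ten of derivations which kill the
coefficients of `A`, and these are determined by the velocities of the nine points on `A`.  In the
smooth case this space has dimension nine: the nine points move independently on the fixed curve
`A`.  Let `x` be a tenth point of `A` and blow up the ten points.  By the inequality of the genus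
and by the inequality of Bezout with `A`, a component of a reduced curve `F` whose class has
negative virtual dimension is `A` itself or a `(-2)`-curve which meets `A` only in the ten points.
By the theorem of Abel such a `(-2)`-curve gives a linear relation between the velocities of the ten
points on `A`; there is at most one such relation up to a scalar, so that two such curves would have
proportional multiplicities and a negative intersection number.  So `F` has at most two
components of negative virtual dimension, and at most one if it is simple at `x`; the numerical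
inequality would need more.

If `x` is the point of the exceptional curve `E_i` on the proper transform of `A`, then a quadratic
transformation based at `p_i` and two other points maps `E_i` to a line; the nine new points are
again very general, and `x` becomes a point of the cubic curve through them, different from them.

`H4RC.mult` and `H4RC.pt` are the definitions of the starting library: `mult F w` is the order of
the expansion of `F` at `w` and `pt p = (p_0, p_1, 1)`.
-/

open MvPolynomial H4RC

namespace Pool.Agent.Results.MP_b1ca72_ag.NinePointsOnTheCubic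

/-- The total transform of the plane curve `F = 0` under the blow-up of the point `q` of the affine
plane, in the chart `(u, s) ↦ q + u (v + s w)` of the blow-up, where `v`, `w` is a basis of the
plane and `u = X 0`, `s = X 1`: these are coordinates of the blow-up near the point of the
exceptional curve (`u = 0`) which is the direction `v`, and this point is `(u, s) = (0, 0)`.  (The
third variable does not occur.) -/
noncomputable def tot (q v w : Fin 2 → ℂ) (F : MvPolynomial (Fin 3) ℂ) :
    MvPolynomial (Fin 3) ℂ :=
  aeval ![C (q 0) + X 0 * (C (v 0) + X 1 * C (w 0)), C (q 1) + X 0 * (C (v 1) + X 1 * C (w 1)), 1] F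

/-- The curve `C = π^* F - ∑ m_i E_i` on the blow-up of the plane at the nine points `p_i` has a
point of multiplicity at least `t` on the curve `π^* B - ∑ E_i`, where `B = 0` is a cubic curve
through the points.  Either this is a point `x` of the plane, given by a nonzero vector, which is
different from all `p_i`, and `B(x) = 0` and `F` has multiplicity at least `t` at `x`; or it is the
point of `E_i` which is the direction `v`, and there `π^* B` has multiplicity at least `2` and
`π^* F` has multiplicity at least `m_i + t` (the multiplicity of `E_i` is one). -/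
def HasPointOn (p : Fin 9 → Fin 2 → ℂ) (B : MvPolynomial (Fin 3) ℂ) (m : Fin 9 → ℕ)
    (F : MvPolynomial (Fin 3) ℂ) (t : ℕ) : Prop :=
  (∃ x : Fin 3 → ℂ, x ≠ 0 ∧ (∀ (i : Fin 9) (c : ℂ), x ≠ c • pt (p i)) ∧ eval x B = 0 ∧
    (t : ℕ∞) ≤ mult F x) ∨
  ∃ (i : Fin 9) (v w : Fin 2 → ℂ), v 0 * w 1 - v 1 * w 0 ≠ 0 ∧
    ((2 : ℕ) : ℕ∞) ≤ mult (tot (p i) v w B) 0 ∧
    ((m i + t : ℕ) : ℕ∞) ≤ mult (tot (p i) v w F) 0

/-- The curve `C = π^* F - ∑ m_i E_i` on the blow-up is reduced: `F` is squarefree and the
coefficient `mult_{p_i} F - m_i` of `E_i` in `C` is at most one for all `i`. -/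
def Reduced (p : Fin 9 → Fin 2 → ℂ) (m : Fin 9 → ℕ) (F : MvPolynomial (Fin 3) ℂ) : Prop :=
  Squarefree F ∧ ∀ i, mult F (pt (p i)) ≤ ((m i + 1 : ℕ) : ℕ∞)

/-- **Main theorem.**  There is a countable set `S` of nonzero polynomials in the `18` affine
coordinates of nine points such that for all configurations `p` of nine points at which no element
of `S` vanishes the following holds.  Let `d ≥ 1`, `t ≥ 1` and `m_1, …, m_9 ≥ 0` satisfy the
numerical inequality of the question.  Let `B = 0` be a cubic curve through the nine points.  Then
every curve `C = π^* F - ∑ m_i E_i` in the linear system `|d H - ∑ m_i E_i|` on the blow-up (`F` is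
a nonzero form of degree `d` with multiplicity at least `m_i` at `p_i` for all `i`) which has a
point of multiplicity at least `t` on `π^* B - ∑ E_i` is non-reduced. -/
theorem result :
    ∃ S : Set (MvPolynomial (Fin 9 × Fin 2) ℂ), S.Countable ∧
      (0 : MvPolynomial (Fin 9 × Fin 2) ℂ) ∉ S ∧
      ∀ p : Fin 9 → Fin 2 → ℂ,
        (∀ g ∈ S, MvPolynomial.eval (fun ij : Fin 9 × Fin 2 => p ij.1 ij.2) g ≠ 0) →
        ∀ (d t : ℕ) (m : Fin 9 → ℕ), 1 ≤ d → 1 ≤ t →
          (((d + 2).choose 2 : ℕ) : ℤ) - ∑ i, (((m i + 1).choose 2 : ℕ) : ℤ)
            ≤ max ((((t + 1).choose 2 : ℕ) : ℤ) - 2) 0 →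
          ∀ B : MvPolynomial (Fin 3) ℂ, B ≠ 0 → B.IsHomogeneous 3 →
            (∀ i, eval (pt (p i)) B = 0) →
            ∀ F : MvPolynomial (Fin 3) ℂ, F ≠ 0 → F.IsHomogeneous d →
              (∀ i, (m i : ℕ∞) ≤ mult F (pt (p i))) → HasPointOn p B m F t → ¬ Reduced p m F := by
  obtain ⟨G, hG0, hG⟩ := Pool.Agent.TH167.SH.exists_fam (Fin 9 × Fin 2)
  refine ⟨Set.range G, Set.countable_range G, ?_, ?_⟩
  · rintro ⟨j, hj⟩
    exact hG0 j hj
  · intro p hp d t m _ ht hN B hB0 hB hBP F _ hF hm
    have hP := (hG fun ij : Fin 9 × Fin 2 => p ij.1 ij.2).1 fun j => hp _ ⟨j, rfl⟩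
    rintro (⟨x, hx0, hx, hBx, hxt⟩ | ⟨i, v, w, hvw, hB2, hvt⟩) ⟨hsq, hred⟩
    · exact absurd hN (not_le.2 (Pool.Agent.H884.TF.nine hP hx0 hx hB0 hB hBP hBx hF hsq hm hxt ht))
    · have hv : v ≠ 0 := by
        rintro rfl
        apply hvw
        simp
      have h1 := Pool.Agent.H884.TF.van_chart (q := p i) hvw
        ((Pool.Agent.TH167.SH.van_iff _ _ _).2 hvt)
      have h2 := Pool.Agent.H884.TF.van_chart (q := p i) hvw
        ((Pool.Agent.TH167.SH.van_iff _ _ _).2 hB2)
      exact absurd hN (not_le.2 (Pool.Agent.H884.TF.nine_ex hP i hv hB0 hB hBP
        ((Pool.Agent.TH167.SH.van_iff _ _ _).1 h2) hF hsq hm (hred i)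
        ((Pool.Agent.TH167.SH.van_iff _ _ _).1 h1) ht))

end Pool.Agent.Results.MP_b1ca72_ag.NinePointsOnTheCubic
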